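import Pool.Agent.H509.ST.Stm
import Pool.Graph.R_pool_sql_team_seeded_5cf16337.K3h4.RL.Tau
import Pool.Graph.R_pool_sql_team_seeded_5cf16337.K3h81.RL.Mono

/-!
# ST-LIN: identities for all `Hom (U, ℤ[G])` imply those for the logarithms
-/

set_option autoImplicit false
set_option linter.unusedSectionVars false

open NumberField IsDedekindDomain Filter Topology

noncomputable section

namespace Pool.Agent.H354.ST

open Pool.Agent.K3h30.RS Pool.Agent.K3h4.RL

variable {F H G : Type} [Field F] [NumberField F] [Field H] [NumberField H] [Algebra F H]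
  [CommGroup G] [Finite G] [MulSemiringAction G H]

theorem fin_U (S T : Finset (HeightOneSpectrum (𝓞 F))) :
    Module.Finite ℤ (Additive (unitGroup (H := H) (S : Set (HeightOneSpectrum (𝓞 F)))
      (T : Set (HeightOneSpectrum (𝓞 F))))) := by
  have h1 : AddGroup.FG (Additive (unitGroup (H := H) (S : Set (HeightOneSpectrum (𝓞 F))) ∅)) :=
    fgA Pool.Agent.K3h25.RS.t_OVER S
  have h2 : Module.Finite ℤ (Additive (unitGroup (H := H)
      (S : Set (HeightOneSpectrum (𝓞 F))) ∅)) := Module.Finite.iff_addGroup_fg.2 h1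
  have hle : unitGroup (H := H) (S : Set (HeightOneSpectrum (𝓞 F)))
      (T : Set (HeightOneSpectrum (𝓞 F))) ≤
      unitGroup (H := H) (S : Set (HeightOneSpectrum (𝓞 F))) ∅ :=
    fun x hx => ⟨hx.1, fun w hw => by obtain ⟨v, hv, -⟩ := hw; exact absurd hv (Set.notMem_empty v)⟩
  let f : Additive (unitGroup (H := H) (S : Set (HeightOneSpectrum (𝓞 F)))
      (T : Set (HeightOneSpectrum (𝓞 F)))) →+ Additive (unitGroup (H := H)
      (S : Set (HeightOneSpectrum (𝓞 F))) ∅) := MonoidHom.toAdditive (Subgroup.inclusion hle)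
  refine Module.Finite.of_injective f.toIntLinearMap ?_
  intro x y hxy
  exact Additive.toMul.injective (Subgroup.inclusion_injective hle (congrArg Additive.toMul hxy))

/-- the logarithm -/
def lg (U : Subgroup Hˣ) (w : Place H) : Additive U →+ ℝ where
  toFun a := Real.log (av w (((Additive.toMul a : U) : Hˣ) : H))
  map_zero' := by
    have h : av w (((1 : Hˣ) : H)) = 1 := by
      have h1 := av_mul w (1 : H) 1
      rw [mul_one] at h1
      have h2 := (Pool.Agent.K3h40.RS.av_pos w (1 : Hˣ)).ne'
      rw [Units.val_one] at h2 ⊢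
      exact (mul_eq_left₀ h2).1 h1.symm
    change Real.log (av w (((1 : Hˣ) : H))) = 0
    rw [h, Real.log_one]
  map_add' a b := by
    change Real.log (av w ((((Additive.toMul a : U) : Hˣ) * ((Additive.toMul b : U) : Hˣ) : Hˣ) : H)) = _
    rw [Units.val_mul, av_mul,
      Real.log_mul (Pool.Agent.K3h40.RS.av_pos w _).ne' (Pool.Agent.K3h40.RS.av_pos w _).ne']

theorem lin : Pool.Agent.STk.S_LIN := by
  intro K H G _ _ _ _ _ _ _ _ _ S T n c x ε hf w
  let _ := Fintype.ofFinite G
  let U := unitGroup (H := H) (S : Set (HeightOneSpectrum (𝓞 K)))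
    (T : Set (HeightOneSpectrum (𝓞 K)))
  let act' : DistribMulAction G (Additive U) :=
    actionA (H := H) (G := G) Pool.Agent.K3h25.RS.t_TRANS (S : Set (HeightOneSpectrum (𝓞 K)))
      (T : Set (HeightOneSpectrum (𝓞 K)))
  have hfin : Module.Finite ℤ (Additive U) := fin_U S T
  let L : Additive U →ₗ[ℤ] ℝ := (lg U w).toIntLinearMap
  have hfree : Module.Free ℤ (LinearMap.range L) := inferInstance
  let b := Module.Free.chooseBasis ℤ (LinearMap.range L)
  let h : Module.Free.ChooseBasisIndex ℤ (LinearMap.range L) → (Additive U →+ ℤ) := fun j =>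
    ((b.coord j).comp L.rangeRestrict).toAddMonoidHom
  have hsum : ∀ a : Additive U, lg U w a = ∑ j, ((b j : LinearMap.range L) : ℝ) * (h j a : ℝ) := by
    intro a
    have h1 := congrArg (Subtype.val) (b.sum_repr (L.rangeRestrict a))
    have h2 : ((L.rangeRestrict a : LinearMap.range L) : ℝ) = lg U w a := rfl
    rw [h2] at h1
    rw [← h1]
    simp only [AddSubmonoidClass.coe_finsetSum, Submodule.coe_smul_of_tower, zsmul_eq_mul]
    refine Finset.sum_congr rfl fun j _ => ?_
    rw [mul_comm]
    rfl
  let Fj : Module.Free.ChooseBasisIndex ℤ (LinearMap.range L) →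
      (Additive U →+ MonoidAlgebra ℤ G) := fun j =>
    { toFun := fun a => ∑ γ : G, MonoidAlgebra.single γ (h j (γ⁻¹ • a))
      map_zero' := by
        refine Finset.sum_eq_zero fun γ _ => ?_
        rw [smul_zero, map_zero, MonoidAlgebra.single_zero]
      map_add' := fun a a' => by
        rw [← Finset.sum_add_distrib]
        refine Finset.sum_congr rfl fun γ _ => ?_
        rw [smul_add, map_add, MonoidAlgebra.single_add] }
  have hFj : ∀ j a, Fj j a = ∑ γ : G, MonoidAlgebra.single γ (h j (γ⁻¹ • a)) := fun _ _ => rfl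
  have hequiv : ∀ j (δ : G) (a : Additive U), Fj j (δ • a) = MonoidAlgebra.single δ 1 * Fj j a := by
    intro j δ a
    rw [hFj, hFj, Finset.mul_sum, ← Equiv.sum_comp (Equiv.mulLeft δ)]
    refine Finset.sum_congr rfl fun γ _ => ?_
    rw [MonoidAlgebra.single_mul_single, one_mul, Equiv.coe_mulLeft, ← mul_smul, mul_inv_rev,
      inv_mul_cancel_right]
  let f : Module.Free.ChooseBasisIndex ℤ (LinearMap.range L) → GHom G U := fun j =>
    { f := Fj j
      equiv := fun γ y z hz => by
        have e : (Additive.ofMul z : Additive U) = γ • Additive.ofMul y := by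
          apply Additive.toMul.injective
          exact Subtype.ext hz
        rw [e, hequiv] }
  have hreg : ∀ y : U, reg G w (y : Hˣ) =
      ∑ j, ((b j : LinearMap.range L) : ℝ) • toR (toQ ((f j).f (Additive.ofMul y))) := by
    intro y
    have e1 : reg G w (y : Hˣ) =
        ∑ γ : G, MonoidAlgebra.single γ (lg U w (γ⁻¹ • Additive.ofMul y)) := rfl
    have e2 : ∀ j, toR (toQ ((f j).f (Additive.ofMul y))) =
        ∑ γ : G, MonoidAlgebra.single γ ((h j (γ⁻¹ • Additive.ofMul y) : ℤ) : ℝ) := by
      intro j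
      have e3 : (f j).f (Additive.ofMul y) =
        ∑ γ : G, MonoidAlgebra.single γ (h j (γ⁻¹ • Additive.ofMul y)) := rfl
      rw [e3, map_sum, map_sum]
      refine Finset.sum_congr rfl fun γ _ => ?_
      simp [toR, toQ]
    rw [e1]
    simp only [e2, Finset.smul_sum]
    rw [Finset.sum_comm]
    refine Finset.sum_congr rfl fun γ _ => ?_
    rw [hsum]
    simp only [MonoidAlgebra.smul_single, smul_eq_mul]
    exact map_sum (MonoidAlgebra.singleAddHom γ) _ _
  rw [hreg ε]
  simp only [hreg, Finset.mul_sum]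
  rw [Finset.sum_comm]
  refine Finset.sum_congr rfl fun j _ => ?_
  rw [← hf (f j), map_sum, Finset.smul_sum]
  refine Finset.sum_congr rfl fun k _ => ?_
  rw [map_mul, mul_smul_comm]

end Pool.Agent.H354.ST
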